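import Pool.Agent.V11106.DB.Main

/-!
# Conjecture D holds if the defects are bounded

Fix a field `k`, a Weil cohomology theory `H` with coefficients in the field `K`, a dimension `n` and
a codimension `r`. The following are equivalent:

1. numerically trivial cycles of codimension `r` on all varieties of dimension `n` are homologically
   trivial;
2. the dimensions of the `K`-spans of the classes of the numerically trivial cycles of codimension
   `r` are bounded, by a bound valid for all varieties of dimension `n`;
3. any two self-correspondences of degree zero act on these classes through commuting operators;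
4. these operators satisfy some non-zero multilinear polynomial identity with coefficients in `K`.

The same holds for every family of numerically trivial cycles which is stable under pull-backs, for
instance for the cycles which are homologically trivial for another Weil cohomology theory `H'`: the
homological equivalence of `H'` implies the one of `H` on all varieties of dimension `n` if the
classes in `H` of the `H'`-trivial cycles span spaces of bounded dimension.

Proof: if `x` is a numerically trivial cycle on `S`, take a complete intersection `V` in `S^N`; its
`N` projections `p_i` to `S` satisfy `p_i_* p_j^* x = 0` for `i ≠ j` and `p_i_* p_i^* x = κ x`. So, if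
the class of `x` is not zero, the classes of the numerically trivial cycles `p_i^* x` on `V` are
independent, and the correspondences `p_j^* p_i_*` act on them as matrix units.
-/

open CategoryTheory AlgebraicGeometry

universe u v w w'

namespace Pool.Agent.Results.MP_f569db_ag.BoundedDefects

open Pool.Agent.H914 Pool.Agent.H914.VarClass Pool.Agent.H914.VarClass.Obj Pool.Agent.W492.BB
  Pool.Agent.TH133 Pool.Agent.V1157.PO Pool.Agent.V1157.KF Pool.Agent.V11106.DB

/-- `x` is numerically trivial of codimension `r`. -/
abbrev Num {k : Type u} [Field k] {𝒱 : VarClass k} (C : TheoryData.{u, v, 0} 𝒱 ℚ) (r : ℕ) :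
    ∀ X : 𝒱.Obj, C.A X → Prop := fun _ x => NumTrivial C r x

theorem result {k : Type u} [Field k] {𝒱 : VarClass k} {C : TheoryData.{u, v, 0} 𝒱 ℚ}
    [IsChowProj C] {K : Type w} [Field K] (H : WeilTheoryData.{u, v, w} C K) [IsWeilProj H]
    (n r : ℕ) (hP : ∀ (S : 𝒱.Obj) (N : ℕ), S.dim = n → HasPower C n N S) :
    List.TFAE [Vanishes H (Num C r) n, ∃ D, SpanAtMost H (Num C r) n D,
      Commuting H (Num C r) n,
      ∃ (d : ℕ) (c : Equiv.Perm (Fin d) → K), c ≠ 0 ∧ PolyIdentity H (Num C r) n d c] ∧
    ∀ R : ∀ X : 𝒱.Obj, C.A X → Prop, IsNumFamily C n r R →
      List.TFAE [Vanishes H R n, ∃ D, SpanAtMost H R n D, Commuting H R n,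
        ∃ (d : ℕ) (c : Equiv.Perm (Fin d) → K), c ≠ 0 ∧ PolyIdentity H R n d c] :=
  ⟨main (isNumFamily_num H) hP, fun _ hR => main hR hP⟩

end Pool.Agent.Results.MP_f569db_ag.BoundedDefects
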