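import Pool.Agent.V1194.DT.Main

/-!
# Homological and numerical equivalence on the products of the powers of an abelian variety and of an
arbitrary variety, over all finitely generated fields

Let `K` be a finitely generated field of **any characteristic**, with Galois group `Γ` and cyclotomic
character `χ`, `ℓ` a prime different from the characteristic, and let `k` be an algebraic closure of
`ℚ_ℓ`. (Each abelian variety and each smooth projective variety over an algebraically closed field is
defined over a finitely generated subfield.) Let `A` be an abelian variety of dimension `g` over `K`
and `V` the Tate module `V_ℓ(A) ⊗ k`, with the Weil pairing `ω` of a polarization. Let `U` be **any**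
smooth projective variety over `K`, of dimension `d`, with the cohomology groups `M b = H^b(U) ⊗ k`.

We suppose that for ONE element `γ` of the Galois group, for example a Frobenius element at one closed
point of a model of `K`, the eigenvalues on `V` are simple and satisfy only the trivial multiplicative
relations with each other and with `χ(γ)` (those between the dual eigenvalues `a`, `b` with
`a * b = χ(γ)`), and also with each eigenvalue `β` on the cohomology of `U`
(`OnlyTrivialRelations`). For each `β` the last condition can be replaced by `IsConjugatedOver`: for each
eigenvalue `a` on `V` some endomorphism of the field `k` fixes a power of `β`, the number `χ(γ)` and the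
characteristic polynomial of `γ` on `V`, and maps `a` to its dual; this is so if a power of `β` is
rational, or lies in a totally real field, or in a field linearly disjoint from the field of the
eigenvalues on `V`.

**Theorem.** For all `n`:

1. (Künneth formula for cycles.) The class of each algebraic cycle on `A^n × U` is a linear combination
   (with coefficients in `k`) of classes of cycles `f × w`, where `f` is a cycle on `A^n` and `w` a
   cycle on `U`.
2. For each `c`, **numerical and homological equivalence coincide for the cycles of codimension `c` on
   `A^n × U` if and only if they coincide on `U` for the cycles of the codimensions `c - i`,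
   `0 ≤ i ≤ n g`.**

So the standard conjecture D is true for `A^n × U` (all codimensions) if it is true for `U`, for
instance for all surfaces `U`; and (`U` a point) it is true for all powers of `A`. For abelian varieties
over infinite fields of positive characteristic no case of this kind is in the starting files, which
treat finite fields.

The structure `IsCycleTheory` lists what is used on algebraic cycles, all of which is known: products,
push-forward along `A^n × U → U`, intersection numbers are integers, cycles are defined over finite
extensions of `K`, the Tate conjecture for divisors on `A^n` and the semisimplicity of the cohomology of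
`A^n` as a Galois representation (theorems of Tate, Zarhin, Mori and Faltings).

Idea of the proof: by a theorem of helper41 (`Pool.Agent.V1141.OF.times_main`, no semisimplicity is
assumed for `U`) the Tate classes on `A^n × U` are combinations of products of Tate classes on `A^n`,
which are generated by those of degree two, and of Tate classes on `U`. The Poincaré dual of a Tate
class on `A^n` can be chosen to be a Tate class, by semisimplicity, and it is then a combination of
cycles. So the coefficients of a cycle on `A^n × U`, in a basis of the Tate classes on `A^n`, are
push-forwards of cycles.
-/

set_option autoImplicit false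

namespace Pool.Agent.Results.MP_f569db_ag.FinitelyGeneratedFields

open Module Pool.Agent.V1194.DT

/-- **Homological and numerical equivalence on `A ^ n × U`.** -/
theorem result {k : Type} [Field k] [CharZero k] [IsAlgClosed k]
    -- the Tate module of the abelian variety `A`, with the Weil pairing
    {V : Type} [AddCommGroup V] [Module k V] [FiniteDimensional k V] (g : ℕ)
    (hg : finrank k V = 2 * g) {Γ : Type} [Group Γ] (ρ : Representation k Γ V) (χ : Γ →* k)
    (ω : V →ₗ[k] V →ₗ[k] k) (halt : ∀ v, ω v v = 0) (hnd : ∀ u, (∀ v, ω v u = 0) → u = 0)
    (hω : ∀ s u v, ω (ρ s u) (ρ s v) = χ s * ω u v)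
    -- the cohomology of `U` and the cycles
    (M : ℕ → Type) [∀ b, AddCommGroup (M b)] [∀ b, Module k (M b)] [∀ b, FiniteDimensional k (M b)]
    (n d : ℕ) (τ : ∀ b, Representation k Γ (M b)) (B : ∀ b b', M b →ₗ[k] M b' →ₗ[k] k)
    (ZA : ∀ j : ℕ, Set ((Fin n → V) [⋀^Fin j]→ₗ[k] k)) (ZU : ∀ b, AddSubgroup (M b))
    (Z : ∀ j b : ℕ, Set ((Fin n → V) [⋀^Fin j]→ₗ[k] M b))
    (hZ : IsCycleTheory ρ χ n d τ B ZA ZU Z)
    -- one element of the Galois group
    (γ : Γ) (hsep : (LinearMap.charpoly (ρ γ)).Separable)
    (hrel : OnlyTrivialRelations (ρ γ) (χ γ) 1)
    (hU : ∀ b β, Module.End.HasEigenvalue (τ b γ) β →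
      OnlyTrivialRelations (ρ γ) (χ γ) β ∨ IsConjugatedOver (ρ γ) (χ γ) β) :
    KunnethFormula ZA ZU Z ∧ ∀ c, ConjectureDTimes d B Z c ↔
      ∀ i, i ≤ c → i ≤ n * g → ConjectureD d B ZU (c - i) := by
  have H : Hyp ρ χ ω τ γ g := ⟨hg, halt, hnd, hω, hsep, hrel, hU⟩
  refine ⟨H.kunneth hZ, fun c => (H.conjectureD_iff hZ c).trans ?_⟩
  have hdim : finrank k (Fin n → V) = 2 * (n * g) := by
    rw [Module.finrank_pi_fintype, Finset.sum_const, Finset.card_univ, Fintype.card_fin, hg,
      smul_eq_mul]
    ring
  rw [hdim]
  exact forall_congr' fun i => forall_congr' fun _ =>
    ⟨fun h hi => h (by omega), fun h hi => h (by omega)⟩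

end Pool.Agent.Results.MP_f569db_ag.FinitelyGeneratedFields
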