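import Pool.Agent.W534.FamD

/-!
# Homological and numerical equivalence on the product with a hyperplane section

Let `X` be a variety of dimension `n` and `i : Y → X` a smooth hyperplane section, with hard and
weak Lefschetz. If homological and numerical equivalence agree for the cycles of the single
codimension `n` on `X × Y`, then they agree for all cycles on `X × Y`, on `X` and on `Y`, the
Lefschetz standard conjecture holds for `X`, and the numerically trivial cycles on `X × X` and
`Y × Y` act through the primitive middle cohomology of `X` and the vanishing cohomology of `Y`.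
-/

set_option autoImplicit false

open Pool.Agent.H914 Pool.Agent.H914.VarClass Pool.Agent.H914.VarClass.Obj
  Pool.Agent.H914.WeilCohomology Pool.Agent.H447 Pool.Agent.W534

universe u v

namespace Pool.Agent.Results.MP_f569db_ag.HyperplaneProduct

/-- **The conjecture D in one codimension on the product with a hyperplane section.** -/
theorem result {k : Type u} [Field k] {𝒱 : VarClass k} {ops : CycleOps 𝒱}
    (W : WeilCohomology.{u, v} ops) (X Y : 𝒱.Obj) (i : Y ⟶ X) (D : X.Cycles)
    (hdim : X.dim = Y.dim + 1) (hD : X.IsCyc 1 D)
    (hY : W.cl X (ops.push i Y.V.fundCycle) = W.cl X D) (hHL : HardLefschetz W X D)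
    (hWL : WeakLefschetz W i) :
    List.TFAE [
      HomEqNumIn W (X.prod Y) X.dim,
      ∀ q, HomEqNumIn W (X.prod Y) q,
      LefschetzB W X D ∧ HomEqNumIn W (X.prod Y) Y.dim] ∧
    (HomEqNumIn W (X.prod Y) X.dim → ∀ q,
      HomEqNumIn W X q ∧ HomEqNumIn W Y q ∧ NumTrivialOnSquares W i D q) :=
  ⟨d_hyperplane hdim hD hY hHL hWL, fun h q =>
    ⟨(homEqNum_factors hdim hD hY hHL hWL h q).1, (homEqNum_factors hdim hD hY hHL hWL h q).2,
      numTrivialOnSquares hdim hD hY hHL hWL h q⟩⟩

end Pool.Agent.Results.MP_f569db_ag.HyperplaneProduct
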