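import Pool.Agent.H255R.HR.Fam

/-!
# Conjecture `D` on products of regular surfaces and on products of curves
-/

open CategoryTheory AlgebraicGeometry

universe u v w

namespace Pool.Agent.Results.MP_f569db_ag.RegularSurfaces

open Pool.Agent.H914 Pool.Agent.H914.VarClass Pool.Agent.H914.VarClass.Obj Pool.Agent.W492.BB
  Pool.Agent.W550.Corr Pool.Agent.TH133 Pool.Agent.H255R.HR

/-- Let `H` be a Weil cohomology theory with coefficients of characteristic zero for the smooth
projective varieties over an algebraically closed field `k`. Let `𝒞` be a class of curves with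
`HasGaloisQuotients` (all curves, if `k` is of characteristic zero; or the hyperelliptic
and the elliptic curves; or one hyperelliptic curve, in all characteristics). For all varieties `U`
and all `R` and `M` the following statements are equivalent.

1. Conjecture `D` holds in codimension at most `R` (the cycles of codimension at most `R` which are
numerically equivalent to zero are homologically equivalent to zero) for the varieties `U × A` and
`U × A × S`, where `A` is a product of at most `M` regular surfaces dominated by products of two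
curves in `𝒞`, and `S` is a curve in `𝒞`.
2. The same without the condition that the surfaces be regular.
3. Conjecture `D` holds in codimension at most `R` for `U × W`, where `W` is a product of at
most `2 M + 1` curves in `𝒞`.
4. Conjecture `D` holds in codimension at most `R` for all varieties which are dominated by
varieties `U × W` as in 3.

If moreover the odd cohomology of `U` vanishes (for example `U = Spec k`), the varieties `U × A`
suffice in 1. -/
theorem result {k : Type u} [Field k] {𝒱 : VarClass k} (C : TheoryData.{u, v, 0} 𝒱 ℚ)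
    [IsChowProj C] {F : Type w} [Field F] [CharZero F] (H : WeilTheoryData.{u, v, w} C F)
    [IsWeilProj H] (𝒞 : 𝒱.Obj → Prop) (hG : HasGaloisQuotients H 𝒞) (U : 𝒱.Obj) (R M : ℕ) :
    List.TFAE [
      ∀ m ≤ M, ∀ A : 𝒱.Obj, IsProdOf U (IsRegularDominated H 𝒞) m A →
        ConjD H R A ∧ ∀ S : 𝒱.Obj, 𝒞 S → ConjD H R (A.prod S),
      ∀ m ≤ M, ∀ A : 𝒱.Obj, IsProdOf U (IsDominatedSurface H 𝒞) m A →
        ConjD H R A ∧ ∀ S : 𝒱.Obj, 𝒞 S → ConjD H R (A.prod S),
      ∀ n ≤ 2 * M + 1, ∀ W : 𝒱.Obj, IsProdOf U 𝒞 n W → ConjD H R W,
      ∀ n ≤ 2 * M + 1, ∀ W X : 𝒱.Obj, IsProdOf U 𝒞 n W → IsDominatedBy C W X →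
        ConjD H R X] ∧
    (OddVanish H U →
      ((∀ m ≤ M, ∀ A : 𝒱.Obj, IsProdOf U (IsRegularDominated H 𝒞) m A → ConjD H R A) ↔
        ∀ n ≤ 2 * M + 1, ∀ W : 𝒱.Obj, IsProdOf U 𝒞 n W → ConjD H R W)) := by
  have h := tfae (𝓜 := numFamily H) (𝓝 := zeroFamily H) hG U R M
  have h' := fun hU : OddVanish H U =>
    iff_odd (𝓜 := numFamily H) (𝓝 := zeroFamily H) hG hU R M
  simp only [good_D] at h h'
  exact ⟨h, h'⟩

end Pool.Agent.Results.MP_f569db_ag.RegularSurfaces
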